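import Pool.Agent.Helper92.LV.Stmts

/-! Module COR (MP_9a3c31_nt): the kernel applied to the signed master inequality. -/

set_option autoImplicit false

open Filter Topology NumberField

namespace Pool.Agent.Helper92.LV

open Pool.Agent.Helper42.LS Pool.Agent.Helper42.LK Pool.Agent.Helper54.LS

theorem cor_B2 (x : ℝ) : |B2 x| ≤ 1 / 6 := by
  have h0 := Int.fract_nonneg x
  have h1 := Int.fract_lt_one x
  rw [abs_le]
  unfold B2
  constructor <;> nlinarith [sq_nonneg (Int.fract x - 1 / 2)]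

theorem st_COR (hK : ST_KER) : ST_COR := by
  intro C₀ hC₀
  obtain ⟨b₀, c₁, C₁, hb₀, hb₀6, hc₁, hC₁, hK⟩ := hK
  have hs : 0 < c₁ + C₁ := by positivity
  refine ⟨b₀, min (c₁ / (2 * (c₁ + C₁))) (c₁ / (288 * C₁)), C₀ * C₁ ^ 2 / 144 + 1, hb₀, hb₀6,
    lt_min (by positivity) (by positivity), by positivity, ?_⟩
  intro e V Vf w t n he hVf hw hn hM b hb hbb G hG hGn hR
  set c := min (c₁ / (2 * (c₁ + C₁))) (c₁ / (288 * C₁)) with hc
  have hc0 : 0 < c := lt_min (by positivity) (by positivity)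
  have hca : c * (c₁ + C₁) ≤ c₁ / 2 := by
    have h1 : c ≤ c₁ / (2 * (c₁ + C₁)) := min_le_left _ _
    calc c * (c₁ + C₁) ≤ c₁ / (2 * (c₁ + C₁)) * (c₁ + C₁) :=
          mul_le_mul_of_nonneg_right h1 hs.le
      _ = c₁ / 2 := by field_simp
  have hcb : c * (288 * C₁) ≤ c₁ := by
    have h1 : c ≤ c₁ / (288 * C₁) := min_le_right _ _
    calc c * (288 * C₁) ≤ c₁ / (288 * C₁) * (288 * C₁) :=
          mul_le_mul_of_nonneg_right h1 (by positivity)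
      _ = c₁ := by field_simp
  obtain ⟨J, β, hJ, hDC, hlog, hab, hsq, hker⟩ := hK b hb hbb
  have h1 := hM J β hJ hDC
  set W := ∑ v ∈ V, w v with hW
  set R := ∑ v ∈ V \ G, w v with hRd
  have hGV : G ⊆ V := hG.trans hVf
  have hWR : ∑ v ∈ G, w v = W - R := by
    have := Finset.sum_sdiff (f := w) hGV
    rw [hW, hRd]
    linarith
  have hW0 : 0 ≤ W := Finset.sum_nonneg hw
  have hR0 : 0 ≤ R := Finset.sum_nonneg fun v hv => hw v (Finset.mem_sdiff.1 hv).1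
  -- the left side
  have h2 : ∑ k ∈ Finset.Icc 1 J, β k * (∑ v ∈ V, w v * B2 (k * t v)) =
      ∑ v ∈ V, w v * ∑ k ∈ Finset.Icc 1 J, β k * B2 (k * t v) := by
    simp_rw [Finset.mul_sum]
    rw [Finset.sum_comm]
    exact Finset.sum_congr rfl fun v _ => Finset.sum_congr rfl fun k _ => by ring
  have hF : ∀ x : ℝ, -(C₁ * b ^ 3 / 6) ≤ ∑ k ∈ Finset.Icc 1 J, β k * B2 (k * x) := by
    intro x
    have h3 : |∑ k ∈ Finset.Icc 1 J, β k * B2 (k * x)| ≤ C₁ * b ^ 3 / 6 := by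
      calc |∑ k ∈ Finset.Icc 1 J, β k * B2 (k * x)|
          ≤ ∑ k ∈ Finset.Icc 1 J, |β k * B2 (k * x)| := Finset.abs_sum_le_sum_abs _ _
        _ ≤ ∑ k ∈ Finset.Icc 1 J, |β k| * (1 / 6) := by
          refine Finset.sum_le_sum fun k _ => ?_
          rw [abs_mul]
          exact mul_le_mul_of_nonneg_left (cor_B2 _) (abs_nonneg _)
        _ = (∑ k ∈ Finset.Icc 1 J, |β k|) * (1 / 6) := (Finset.sum_mul _ _ _).symm
        _ ≤ C₁ * b ^ 3 / 6 := by linarith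
    exact (abs_le.1 h3).1
  have h4 : c₁ * b ^ 4 * (W - R) - C₁ * b ^ 3 / 6 * R ≤
      ∑ v ∈ V, w v * ∑ k ∈ Finset.Icc 1 J, β k * B2 (k * t v) := by
    rw [← Finset.sum_sdiff hGV (f := fun v => w v * ∑ k ∈ Finset.Icc 1 J, β k * B2 (k * t v))]
    have h5 : c₁ * b ^ 4 * (W - R) ≤
        ∑ v ∈ G, w v * ∑ k ∈ Finset.Icc 1 J, β k * B2 (k * t v) := by
      rw [← hWR, mul_comm, Finset.sum_mul]
      refine Finset.sum_le_sum fun v hv => ?_
      refine mul_le_mul_of_nonneg_left ?_ (hw v (hGV hv))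
      obtain ⟨h6, h7⟩ := hn v (hG hv)
      exact hker (n v) (t v) h6 (hGn v hv) h7
    have h8 : -(C₁ * b ^ 3 / 6 * R) ≤
        ∑ v ∈ V \ G, w v * ∑ k ∈ Finset.Icc 1 J, β k * B2 (k * t v) := by
      have h9 : -(C₁ * b ^ 3 / 6 * R) = ∑ v ∈ V \ G, w v * (-(C₁ * b ^ 3 / 6)) := by
        rw [← Finset.sum_mul, ← hRd]
        ring
      rw [h9]
      refine Finset.sum_le_sum fun v hv => ?_
      exact mul_le_mul_of_nonneg_left (hF _) (hw v (Finset.mem_sdiff.1 hv).1)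
    linarith
  -- the right side
  have hL0 : 0 ≤ 1 + Real.log J := by
    have : 0 ≤ Real.log J := Real.log_nonneg (by exact_mod_cast hJ)
    linarith
  have h10 : (1 + Real.log J) ^ 2 ≤ (C₁ * (1 + Real.log (1 / b))) ^ 2 :=
    pow_le_pow_left₀ hL0 hlog 2
  have h11 : C₀ * (1 + Real.log J) ^ 2 * ∑ k ∈ Finset.Icc 1 J, |β k| ≤
      C₀ * (C₁ * (1 + Real.log (1 / b))) ^ 2 * (C₁ * b ^ 3) := by
    have h12 : 0 ≤ ∑ k ∈ Finset.Icc 1 J, |β k| := Finset.sum_nonneg fun k _ => abs_nonneg _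
    exact mul_le_mul (mul_le_mul_of_nonneg_left h10 hC₀) hab h12
      (mul_nonneg hC₀ (sq_nonneg _))
  have h13 : 144 * e * ∑ k ∈ Finset.Icc 1 J, β k * (k : ℝ) ^ 2 ≤ 144 * e * (C₁ * b) :=
    mul_le_mul_of_nonneg_left hsq (by positivity)
  rw [h2] at h1
  have h14 : c₁ * b ^ 4 * (W - R) - C₁ * b ^ 3 / 6 * R ≤
      144 * e * (C₁ * b) + C₀ * (C₁ * (1 + Real.log (1 / b))) ^ 2 * (C₁ * b ^ 3) := by
    linarith
  set L := 1 + Real.log (1 / b) with hL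
  have hb1 : b ≤ 1 := by linarith
  -- the loss
  have h15 : c₁ * b ^ 4 * R + C₁ * b ^ 3 / 6 * R ≤ c₁ / 2 * (b ^ 4 * W) := by
    have h16 : (c₁ * b ^ 4 + C₁ * b ^ 3 / 6) * R ≤ (c₁ * b ^ 4 + C₁ * b ^ 3 / 6) * (c * b * W) :=
      mul_le_mul_of_nonneg_left hR (by positivity)
    have h17 : (c₁ * b ^ 4 + C₁ * b ^ 3 / 6) * (c * b * W) ≤ c * (c₁ + C₁) * (b ^ 4 * W) := by
      have h18 : c₁ * b ^ 4 + C₁ * b ^ 3 / 6 ≤ (c₁ + C₁) * b ^ 3 := by
        have h19 : b ^ 4 ≤ b ^ 3 := pow_le_pow_of_le_one hb.le hb1 (by norm_num)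
        have h20 : 0 ≤ C₁ * b ^ 3 := by positivity
        nlinarith [mul_le_mul_of_nonneg_left h19 hc₁.le]
      calc (c₁ * b ^ 4 + C₁ * b ^ 3 / 6) * (c * b * W)
          ≤ ((c₁ + C₁) * b ^ 3) * (c * b * W) := mul_le_mul_of_nonneg_right h18 (by positivity)
        _ = c * (c₁ + C₁) * (b ^ 4 * W) := by ring
    have h21 : c * (c₁ + C₁) * (b ^ 4 * W) ≤ c₁ / 2 * (b ^ 4 * W) :=
      mul_le_mul_of_nonneg_right hca (by positivity)
    linarith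
  have h22 : c₁ / 2 * (b ^ 4 * W) ≤ 144 * e * (C₁ * b) + C₀ * (C₁ * L) ^ 2 * (C₁ * b ^ 3) := by
    linarith
  have h23 : c * b ^ 3 * W * (144 * C₁ * b) ≤
      (e + (C₀ * C₁ ^ 2 / 144) * L ^ 2 * b ^ 2) * (144 * C₁ * b) := by
    have h24 : c * (288 * C₁) * (b ^ 4 * W) ≤ c₁ * (b ^ 4 * W) :=
      mul_le_mul_of_nonneg_right hcb (by positivity)
    calc c * b ^ 3 * W * (144 * C₁ * b) = c * (288 * C₁) * (b ^ 4 * W) / 2 := by ring
      _ ≤ c₁ * (b ^ 4 * W) / 2 := by linarith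
      _ = c₁ / 2 * (b ^ 4 * W) := by ring
      _ ≤ 144 * e * (C₁ * b) + C₀ * (C₁ * L) ^ 2 * (C₁ * b ^ 3) := h22
      _ = (e + (C₀ * C₁ ^ 2 / 144) * L ^ 2 * b ^ 2) * (144 * C₁ * b) := by ring
  have h25 := le_of_mul_le_mul_right h23 (by positivity)
  have h26 : 0 ≤ L ^ 2 * b ^ 2 := by positivity
  linarith

end Pool.Agent.Helper92.LV
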