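import Pool.Agent.Helper92.LV.Stmts

/-! Module QCA (MP_9a3c31_nt): closure of the neighbourhoods of the origin, complex numbers. -/

set_option autoImplicit false

open Filter Topology NumberField

namespace Pool.Agent.Helper92.LV

open Pool.Agent.Helper42.LS Pool.Agent.Helper42.LK Pool.Agent.Helper54.LS

theorem qca_sp {F : Type} [Field F] (c d e X1 X2 X3 X4 y1 y2 : F) (hne : X1 ≠ X2)
    (h1 : y1 ^ 2 = X1 ^ 3 + c * X1 ^ 2 + d * X1 + e) (h2 : y2 ^ 2 = X2 ^ 3 + c * X2 ^ 2 + d * X2 + e)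
    (h3 : X3 = ((y1 - y2) / (X1 - X2)) ^ 2 - c - X1 - X2)
    (h4 : X4 = ((y1 + y2) / (X1 - X2)) ^ 2 - c - X1 - X2) :
    (X3 + X4) * (X1 - X2) ^ 2 = 2 * ((X1 + X2) * (d + X1 * X2) + 2 * c * X1 * X2 + 2 * e) ∧
    X3 * X4 * (X1 - X2) ^ 2 = (X1 * X2 - d) ^ 2 - 4 * e * (X1 + X2 + c) := by
  have hD : X1 - X2 ≠ 0 := sub_ne_zero.mpr hne
  have e3 : X3 * (X1 - X2) ^ 2 = (y1 - y2) ^ 2 - (c + X1 + X2) * (X1 - X2) ^ 2 := by
    rw [h3]
    field_simp
    ring
  have e4 : X4 * (X1 - X2) ^ 2 = (y1 + y2) ^ 2 - (c + X1 + X2) * (X1 - X2) ^ 2 := by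
    rw [h4]
    field_simp
    ring
  constructor
  · linear_combination e3 + e4 + 2 * h1 + 2 * h2
  · apply mul_right_cancel₀ (pow_ne_zero 2 hD)
    have e5 : X3 * X4 * (X1 - X2) ^ 2 * (X1 - X2) ^ 2 =
        (X3 * (X1 - X2) ^ 2) * (X4 * (X1 - X2) ^ 2) := by ring
    rw [e5, e3, e4]
    have e6 : ((y1 - y2) ^ 2 - (c + X1 + X2) * (X1 - X2) ^ 2) *
        ((y1 + y2) ^ 2 - (c + X1 + X2) * (X1 - X2) ^ 2) =
        (y1 ^ 2 - y2 ^ 2) ^ 2 - 2 * (c + X1 + X2) * (X1 - X2) ^ 2 * (y1 ^ 2 + y2 ^ 2) +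
          (c + X1 + X2) ^ 2 * (X1 - X2) ^ 4 := by ring
    rw [e6, h1, h2]
    ring

/-- the case of a sum or a difference of two different points, ordered -/
theorem qca_core (M : ℝ) (hM : 1 ≤ M) (a b c X1 X2 X3 X4 : ℂ) (ha : ‖a‖ ≤ M) (hb : ‖b‖ ≤ M)
    (hc : ‖c‖ ≤ M) (hne : X1 ≠ X2) (hle : ‖X2‖ ≤ ‖X1‖) (hq : 100 * M ≤ ‖X2‖)
    (hs : (X3 + X4) * (X1 - X2) ^ 2 =
      2 * ((X1 + X2) * (b + X1 * X2) + 2 * a * X1 * X2 + 2 * c))
    (hp : X3 * X4 * (X1 - X2) ^ 2 = (X1 * X2 - b) ^ 2 - 4 * c * (X1 + X2 + a)) :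
    ‖X2‖ / 100 ≤ ‖X3‖ := by
  by_contra hcon
  rw [not_le] at hcon
  set p := ‖X1‖ with hpd
  set q := ‖X2‖ with hqd
  set m := ‖X3‖ with hmd
  set D := ‖X1 - X2‖ with hD
  have hD0 : 0 < D := norm_pos_iff.2 (sub_ne_zero.2 hne)
  have hD2 : D ≤ 2 * p := (norm_sub_le _ _).trans (by linarith)
  have hq100 : 100 ≤ q := by linarith
  have hp100 : 100 ≤ p := by linarith
  have hm0 : 0 ≤ m := norm_nonneg _
  -- products
  have h1 : (p * q) ^ 2 / 2 ≤ m * ‖X4‖ * D ^ 2 := by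
    have e1 : m * ‖X4‖ * D ^ 2 = ‖(X1 * X2 - b) ^ 2 - 4 * c * (X1 + X2 + a)‖ := by
      rw [← hp, norm_mul, norm_mul, norm_pow]
    rw [e1]
    have e2 : p * q - M ≤ ‖X1 * X2 - b‖ := by
      have := norm_sub_norm_le (X1 * X2) b
      rw [norm_mul] at this
      linarith
    have e3 : ‖X1 * X2 - b‖ ^ 2 - 4 * M * (p + q + M) ≤
        ‖(X1 * X2 - b) ^ 2 - 4 * c * (X1 + X2 + a)‖ := by
      have f1 := norm_sub_norm_le ((X1 * X2 - b) ^ 2) (4 * c * (X1 + X2 + a))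
      have f2 : ‖4 * c * (X1 + X2 + a)‖ ≤ 4 * M * (p + q + M) := by
        rw [norm_mul, norm_mul]
        have f3 : ‖X1 + X2 + a‖ ≤ p + q + M :=
          (norm_add_le _ _).trans (add_le_add (norm_add_le _ _) ha)
        have f4 : ‖(4 : ℂ)‖ = 4 := by simp
        rw [f4]
        exact mul_le_mul (by linarith) f3 (norm_nonneg _) (by positivity)
      rw [norm_pow] at f1
      linarith
    have hs1 : 100 * M * p ≤ p * q := by nlinarith
    have hs2 : 10000 ≤ p * q := by nlinarith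
    have hs3 : 10000 * M ≤ p * q := by nlinarith
    have e4 : (p * q - M) ^ 2 ≤ ‖X1 * X2 - b‖ ^ 2 :=
      pow_le_pow_left₀ (by nlinarith) e2 2
    have e5 : 4 * M * (p + q + M) ≤ 12 * (M * p) := by nlinarith
    nlinarith [mul_le_mul hs2 (le_refl (p * q)) (by positivity) (by positivity)]
  -- sums
  have h2 : ‖X3 + X4‖ * D ^ 2 ≤ 8 * (p ^ 2 * q) := by
    have e1 : ‖X3 + X4‖ * D ^ 2 =
        ‖2 * ((X1 + X2) * (b + X1 * X2) + 2 * a * X1 * X2 + 2 * c)‖ := by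
      rw [← hs, norm_mul, norm_pow]
    rw [e1]
    have e2 : ‖2 * ((X1 + X2) * (b + X1 * X2) + 2 * a * X1 * X2 + 2 * c)‖ ≤
        2 * ((p + q) * (M + p * q) + 2 * M * p * q + 2 * M) := by
      rw [norm_mul]
      have f0 : ‖(2 : ℂ)‖ = 2 := by simp
      rw [f0]
      refine mul_le_mul_of_nonneg_left ?_ (by norm_num)
      refine (norm_add_le _ _).trans (add_le_add ((norm_add_le _ _).trans (add_le_add ?_ ?_)) ?_)
      · rw [norm_mul]
        refine mul_le_mul (norm_add_le _ _) ?_ (norm_nonneg _) (by positivity)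
        refine (norm_add_le _ _).trans (add_le_add hb ?_)
        rw [norm_mul]
      · rw [norm_mul, norm_mul, norm_mul, f0]
        have : 2 * ‖a‖ * ‖X1‖ * ‖X2‖ ≤ 2 * M * ‖X1‖ * ‖X2‖ := by gcongr
        exact this
      · rw [norm_mul, f0]
        linarith
    have hqM : M ≤ q / 100 := by linarith
    have f1 : (p + q) * (M + p * q) ≤ 2 * p * (M + p * q) :=
      mul_le_mul_of_nonneg_right (by linarith) (by positivity)
    have f2 : p * M ≤ p * (q / 100) := mul_le_mul_of_nonneg_left hqM (by linarith)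
    have f3 : M * (p * q) ≤ (p / 100) * (p * q) :=
      mul_le_mul_of_nonneg_right (by linarith) (by positivity)
    have f4 : 100 * (p * q) ≤ p * (p * q) :=
      mul_le_mul_of_nonneg_right hp100 (by positivity)
    have f5 : 100 * q ≤ p * q := mul_le_mul_of_nonneg_right hp100 (by linarith)
    nlinarith
  -- the contradiction
  have h3 : ‖X4‖ ≤ ‖X3 + X4‖ + m := by
    have : X4 = (X3 + X4) - X3 := by ring
    calc ‖X4‖ = ‖(X3 + X4) - X3‖ := by rw [← this]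
      _ ≤ ‖X3 + X4‖ + ‖X3‖ := norm_sub_le _ _
  have h4 : m * ‖X4‖ * D ^ 2 ≤ m * (‖X3 + X4‖ * D ^ 2 + m * D ^ 2) := by
    have : m * ‖X4‖ * D ^ 2 ≤ m * (‖X3 + X4‖ + m) * D ^ 2 := by gcongr
    calc m * ‖X4‖ * D ^ 2 ≤ m * (‖X3 + X4‖ + m) * D ^ 2 := this
      _ = m * (‖X3 + X4‖ * D ^ 2 + m * D ^ 2) := by ring
  have h5 : D ^ 2 ≤ 4 * p ^ 2 := by nlinarith
  have h6 : m * D ^ 2 ≤ q / 100 * (4 * p ^ 2) := mul_le_mul hcon.le h5 (by positivity) (by positivity)
  have h7 : m * (‖X3 + X4‖ * D ^ 2 + m * D ^ 2) ≤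
      q / 100 * (8 * (p ^ 2 * q) + q / 100 * (4 * p ^ 2)) :=
    mul_le_mul hcon.le (add_le_add h2 h6) (by positivity) (by positivity)
  have h8 : 0 < (p * q) ^ 2 := by positivity
  nlinarith

/-- both orders -/
theorem qca_min (M : ℝ) (hM : 1 ≤ M) (a b c X1 X2 X3 X4 : ℂ) (ha : ‖a‖ ≤ M) (hb : ‖b‖ ≤ M)
    (hc : ‖c‖ ≤ M) (hne : X1 ≠ X2) (hq : 100 * M ≤ min ‖X1‖ ‖X2‖)
    (hs : (X3 + X4) * (X1 - X2) ^ 2 =
      2 * ((X1 + X2) * (b + X1 * X2) + 2 * a * X1 * X2 + 2 * c))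
    (hp : X3 * X4 * (X1 - X2) ^ 2 = (X1 * X2 - b) ^ 2 - 4 * c * (X1 + X2 + a)) :
    min ‖X1‖ ‖X2‖ / 100 ≤ ‖X3‖ := by
  rcases le_total ‖X2‖ ‖X1‖ with h | h
  · rw [min_eq_right h] at hq ⊢
    exact qca_core M hM a b c X1 X2 X3 X4 ha hb hc hne h hq hs hp
  · rw [min_eq_left h] at hq ⊢
    refine qca_core M hM a b c X2 X1 X3 X4 ha hb hc (Ne.symm hne) h hq ?_ ?_
    · linear_combination hs
    · linear_combination hp

/-- doubling -/
theorem qca_dbl (M : ℝ) (hM : 1 ≤ M) (a b c X X' : ℂ) (ha : ‖a‖ ≤ M) (hb : ‖b‖ ≤ M)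
    (hc : ‖c‖ ≤ M) (hq : 100 * M ≤ ‖X‖)
    (h : X' * (4 * (X ^ 3 + a * X ^ 2 + b * X + c)) = (X ^ 2 - b) ^ 2 - 4 * c * (2 * X + a)) :
    ‖X‖ / 100 ≤ ‖X'‖ := by
  set r := ‖X‖ with hr
  have hr100 : 100 ≤ r := by linarith
  have f4 : ‖(4 : ℂ)‖ = 4 := by simp
  have f0 : ‖(2 : ℂ)‖ = 2 := by simp
  have h1 : r ^ 4 / 2 ≤ ‖X'‖ * ‖4 * (X ^ 3 + a * X ^ 2 + b * X + c)‖ := by
    rw [← norm_mul, h]
    have e2 : r ^ 2 - M ≤ ‖X ^ 2 - b‖ := by
      have := norm_sub_norm_le (X ^ 2) b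
      rw [norm_pow] at this
      linarith
    have e3 : ‖X ^ 2 - b‖ ^ 2 - 4 * M * (2 * r + M) ≤
        ‖(X ^ 2 - b) ^ 2 - 4 * c * (2 * X + a)‖ := by
      have f1 := norm_sub_norm_le ((X ^ 2 - b) ^ 2) (4 * c * (2 * X + a))
      have f2 : ‖4 * c * (2 * X + a)‖ ≤ 4 * M * (2 * r + M) := by
        rw [norm_mul, norm_mul, f4]
        have f3 : ‖2 * X + a‖ ≤ 2 * r + M := by
          refine (norm_add_le _ _).trans (add_le_add ?_ ha)
          rw [norm_mul, f0]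
        exact mul_le_mul (by linarith) f3 (norm_nonneg _) (by positivity)
      rw [norm_pow] at f1
      linarith
    have g1 : 100 * M ≤ r := hq
    have g2 : 10000 ≤ r ^ 2 := by nlinarith
    have g3 : 100 * (M * r) ≤ r ^ 2 := by nlinarith
    have g4 : 10000 * M ≤ r ^ 2 := by nlinarith
    have e4 : (r ^ 2 - M) ^ 2 ≤ ‖X ^ 2 - b‖ ^ 2 := pow_le_pow_left₀ (by nlinarith) e2 2
    have e5 : 4 * M * (2 * r + M) ≤ 12 * (M * r) := by nlinarith
    have e6 : r ^ 4 = r ^ 2 * r ^ 2 := by ring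
    have e7 : 10000 * r ^ 2 ≤ r ^ 2 * r ^ 2 := mul_le_mul_of_nonneg_right g2 (by positivity)
    have e8 : 10000 * M * r ^ 2 ≤ r ^ 2 * r ^ 2 := mul_le_mul_of_nonneg_right g4 (by positivity)
    rw [e6]
    nlinarith
  have h2 : ‖4 * (X ^ 3 + a * X ^ 2 + b * X + c)‖ ≤ 8 * r ^ 3 := by
    rw [norm_mul, f4]
    have e1 : ‖X ^ 3 + a * X ^ 2 + b * X + c‖ ≤ r ^ 3 + M * r ^ 2 + M * r + M := by
      refine (norm_add_le _ _).trans (add_le_add ((norm_add_le _ _).trans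
        (add_le_add ((norm_add_le _ _).trans (add_le_add ?_ ?_)) ?_)) hc)
      · rw [norm_pow]
      · rw [norm_mul, norm_pow]
        exact mul_le_mul_of_nonneg_right ha (by positivity)
      · rw [norm_mul]
        exact mul_le_mul_of_nonneg_right hb (by positivity)
    have g1 : M ≤ r / 100 := by linarith
    have g2 : M * r ^ 2 ≤ r / 100 * r ^ 2 := mul_le_mul_of_nonneg_right g1 (by positivity)
    have g3 : M * r ≤ r / 100 * r := mul_le_mul_of_nonneg_right g1 (by positivity)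
    have g4 : 100 * r ^ 2 ≤ r * r ^ 2 := mul_le_mul_of_nonneg_right hr100 (by positivity)
    have g5 : 100 * r ≤ r * r := mul_le_mul_of_nonneg_right hr100 (by linarith)
    nlinarith
  have h3 : r ^ 4 / 2 ≤ ‖X'‖ * (8 * r ^ 3) :=
    h1.trans (mul_le_mul_of_nonneg_left h2 (norm_nonneg _))
  have h4 : r ^ 3 * (r / 2) ≤ r ^ 3 * (8 * ‖X'‖) := by
    calc r ^ 3 * (r / 2) = r ^ 4 / 2 := by ring
      _ ≤ ‖X'‖ * (8 * r ^ 3) := h3
      _ = r ^ 3 * (8 * ‖X'‖) := by ring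
  have h5 := le_of_mul_le_mul_left h4 (by positivity)
  linarith

/-- passage to logarithms -/
theorem qca_log (M x1 x2 x3 : ℝ) (hM : 1 ≤ M) (_h1 : 0 ≤ x1) (_h2 : 0 ≤ x2)
    (h : 100 * M ≤ min x1 x2 → min x1 x2 / 100 ≤ x3) :
    min (Real.log (max x1 1)) (Real.log (max x2 1)) - Real.log (100 * M) ≤
      Real.log (max x3 1) := by
  have h3 : 0 ≤ Real.log (max x3 1) := Real.log_nonneg (le_max_right _ _)
  have hM0 : 0 < 100 * M := by linarith
  by_cases hc : 100 * M ≤ min x1 x2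
  · have h4 := h hc
    have hm1 : 1 ≤ min x1 x2 := by linarith
    have e1 : max x1 1 = x1 := max_eq_left (hm1.trans (min_le_left _ _))
    have e2 : max x2 1 = x2 := max_eq_left (hm1.trans (min_le_right _ _))
    rw [e1, e2]
    have e3 : min (Real.log x1) (Real.log x2) ≤ Real.log (min x1 x2) := by
      rcases le_total x1 x2 with h5 | h5
      · rw [min_eq_left h5]
        exact min_le_left _ _
      · rw [min_eq_right h5]
        exact min_le_right _ _
    have e4 : Real.log (min x1 x2) - Real.log (100 * M) ≤ Real.log (max x3 1) := by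
      rw [← Real.log_div (by linarith) hM0.ne']
      apply Real.log_le_log (div_pos (by linarith) hM0)
      refine le_trans ?_ (le_max_left _ _)
      refine le_trans ?_ h4
      apply div_le_div_of_nonneg_left (by linarith) (by norm_num) (by linarith)
    linarith
  · rw [not_le] at hc
    have e1 : min (Real.log (max x1 1)) (Real.log (max x2 1)) ≤ Real.log (100 * M) := by
      rcases min_lt_iff.1 hc with h5 | h5
      · refine (min_le_left _ _).trans (Real.log_le_log (by positivity) ?_)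
        exact max_le h5.le (by linarith)
      · refine (min_le_right _ _).trans (Real.log_le_log (by positivity) ?_)
        exact max_le h5.le (by linarith)
    linarith

theorem st_QCA : ST_QCA := by
  intro M0
  set M := max M0 1 with hMd
  have hM : 1 ≤ M := le_max_right _ _
  refine ⟨Real.log (100 * M), Real.log_nonneg (by linarith), ?_⟩
  intro a b c ha hb hc X Y hG
  replace ha : ‖a‖ ≤ M := ha.trans (le_max_left _ _)
  replace hb : ‖b‖ ≤ M := hb.trans (le_max_left _ _)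
  replace hc : ‖c‖ ≤ M := hc.trans (le_max_left _ _)
  have hsp : ∀ k l : ℕ, 1 ≤ l → l < k →
      (X (k + l) + X (k - l)) * (X k - X l) ^ 2 =
        2 * ((X k + X l) * (b + X k * X l) + 2 * a * X k * X l + 2 * c) ∧
      X (k + l) * X (k - l) * (X k - X l) ^ 2 =
        (X k * X l - b) ^ 2 - 4 * c * (X k + X l + a) := by
    intro k l hl hlk
    exact qca_sp a b c (X k) (X l) (X (k + l)) (X (k - l)) (Y k) (Y l) (hG.xne k l hl hlk)
      (hG.curve k (by omega)) (hG.curve l hl) (hG.addx k l hl hlk) (hG.subx k l hl hlk)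
  have hadd : ∀ k l : ℕ, 1 ≤ l → l < k →
      min (Real.log (max ‖X k‖ 1)) (Real.log (max ‖X l‖ 1)) - Real.log (100 * M) ≤
        Real.log (max ‖X (k + l)‖ 1) := by
    intro k l hl hlk
    refine qca_log M _ _ _ hM (norm_nonneg _) (norm_nonneg _) fun h => ?_
    exact qca_min M hM a b c (X k) (X l) (X (k + l)) (X (k - l)) ha hb hc (hG.xne k l hl hlk) h
      (hsp k l hl hlk).1 (hsp k l hl hlk).2
  refine ⟨fun k _ => Real.log_nonneg (le_max_right _ _), ?_, ?_⟩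
  · intro k l hk hl
    rcases lt_trichotomy l k with h | h | h
    · exact hadd k l hl h
    · subst h
      refine qca_log M _ _ _ hM (norm_nonneg _) (norm_nonneg _) fun h => ?_
      rw [min_self] at h ⊢
      have e2 : l + l = 2 * l := by ring
      show ‖X l‖ / 100 ≤ ‖X (l + l)‖
      rw [e2]
      refine qca_dbl M hM a b c (X l) (X (2 * l)) ha hb hc h ?_
      have hy := hG.yne l hk
      have h1 := hG.curve l hk
      have e3 : X (2 * l) * (4 * Y l ^ 2) =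
          (3 * X l ^ 2 + 2 * a * X l + b) ^ 2 - (a + 2 * X l) * (4 * Y l ^ 2) := by
        rw [hG.dblx l hk]
        field_simp
        ring
      rw [h1] at e3
      rw [e3]
      ring
    · have := hadd l k hk h
      rw [min_comm, add_comm]
      exact this
  · intro k l hl hlk
    refine qca_log M _ _ _ hM (norm_nonneg _) (norm_nonneg _) fun h => ?_
    refine qca_min M hM a b c (X k) (X l) (X (k - l)) (X (k + l)) ha hb hc (hG.xne k l hl hlk) h
      ?_ ?_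
    · rw [add_comm (X (k - l))]
      exact (hsp k l hl hlk).1
    · rw [mul_comm (X (k - l))]
      exact (hsp k l hl hlk).2

end Pool.Agent.Helper92.LV
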